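import Pool.Agent.H341R2.WeilSharp

/-!
Parsons graphs: the points `(x, s)`, `χ(s) = κ`, of a finite field `F` of odd order, with
`(x, s) ~ (a, t)` iff `(x - a)² = s + t`. There are no triangles if `κ = -χ(-1)`, two vertices have
at most one common neighbour, and two different vertices that are not adjacent are joined by about
`q / 4` paths of length three (Weil's bound).
-/

set_option autoImplicit false

namespace Q146.Sat4

open Finset Polynomial

variable {F : Type} [Field F] [Fintype F] [DecidableEq F]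

/-- adjacency -/
def R (v w : F × F) : Prop := (v.1 - w.1) ^ 2 = v.2 + w.2

theorem R_symm {v w : F × F} (h : R v w) : R w v := by
  unfold R at *
  linear_combination h

theorem no_tri (h2 : (2 : F) ≠ 0) {κ : ℤ} (hκ : κ = -quadraticChar F (-1)) {u v w : F × F}
    (hu : quadraticChar F u.2 = κ) (hv : quadraticChar F v.2 = κ) (hw : quadraticChar F w.2 = κ)
    (huv : R u v) (hvw : R v w) (hwu : R w u) : False := by
  unfold R at *
  have e1 : u.2 = -((u.1 - v.1) * (w.1 - u.1)) :=
    mul_left_cancel₀ h2 (by linear_combination hvw - huv - hwu)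
  have e2 : v.2 = -((u.1 - v.1) * (v.1 - w.1)) :=
    mul_left_cancel₀ h2 (by linear_combination hwu - huv - hvw)
  have e3 : w.2 = -((v.1 - w.1) * (w.1 - u.1)) :=
    mul_left_cancel₀ h2 (by linear_combination huv - hvw - hwu)
  have hn1 : quadraticChar F (-1 : F) ≠ 0 := by
    intro h
    rw [quadraticChar_eq_zero_iff] at h
    exact one_ne_zero (neg_eq_zero.1 h)
  have hκ0 : κ ≠ 0 := by rw [hκ]; exact neg_ne_zero.2 hn1
  have hκ2 : κ ^ 2 = 1 := by
    rw [hκ, neg_sq]
    exact quadraticChar_sq_one (neg_ne_zero.2 one_ne_zero)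
  have e4 : u.2 * v.2 * w.2 = (-1) * ((u.1 - v.1) * (v.1 - w.1) * (w.1 - u.1)) ^ 2 := by
    rw [e1, e2, e3]; ring
  have e5 := congrArg (quadraticChar F) e4
  rw [map_mul, map_mul, map_mul, map_pow, hu, hv, hw] at e5
  have hne : (u.1 - v.1) * (v.1 - w.1) * (w.1 - u.1) ≠ 0 := by
    intro h
    rw [h, quadraticChar_zero] at e5
    have : κ * κ * κ = 0 := by rw [e5]; ring
    exact hκ0 (by
      rcases mul_eq_zero.1 this with h' | h'
      · rcases mul_eq_zero.1 h' with h'' | h'' <;> exact h''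
      · exact h')
  rw [quadraticChar_sq_one hne, mul_one] at e5
  have : κ * κ * κ = κ := by
    have : κ * κ * κ = κ ^ 2 * κ := by ring
    rw [this, hκ2, one_mul]
  rw [this] at e5
  omega

theorem c4 (h2 : (2 : F) ≠ 0) {v v' a b : F × F} (hne : v ≠ v') (h1 : R v a) (h1' : R v' a)
    (h3 : R v b) (h3' : R v' b) : a = b := by
  unfold R at *
  have e : 2 * (v.1 - v'.1) * (b.1 - a.1) = 0 := by linear_combination h1 - h1' - h3 + h3'
  have hv : v.1 ≠ v'.1 := by
    intro hv
    apply hne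
    refine Prod.ext hv ?_
    rw [hv] at h1
    linear_combination h1' - h1
  have hab : b.1 = a.1 := by
    rcases mul_eq_zero.1 e with h | h
    · rcases mul_eq_zero.1 h with h' | h'
      · exact absurd h' h2
      · exact absurd (sub_eq_zero.1 h') hv
    · exact sub_eq_zero.1 h
  refine Prod.ext hab.symm ?_
  rw [hab] at h3
  linear_combination h3 - h1

/-- first polynomial -/
noncomputable def fp (D s : F) : F[X] := C 1 * X ^ 2 + C (2 * D) * X + C (D ^ 2 - s)

/-- second polynomial -/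
noncomputable def gp (D r m : F) : F[X] := C (D ^ 2 - r) * X ^ 2 + C (-2 * m * D) * X + C (m ^ 2)

theorem fp_eval (D s U : F) : (fp D s).eval U = (U + D) ^ 2 - s := by
  simp only [fp, eval_add, eval_mul, eval_C, eval_pow, eval_X]; ring

theorem gp_eval (D r m U : F) : (gp D r m).eval U = (m - D * U) ^ 2 - r * U ^ 2 := by
  simp only [gp, eval_add, eval_mul, eval_C, eval_pow, eval_X]; ring

theorem fp_natDegree (D s : F) : (fp D s).natDegree = 2 := natDegree_quadratic one_ne_zero

theorem gp_natDegree_le (D r m : F) : (gp D r m).natDegree ≤ 2 := natDegree_quadratic_le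

/-- coprime to the derivative -/
theorem fp_sep (h2 : (2 : F) ≠ 0) {D s : F} (hs : s ≠ 0) : (fp D s).Separable := by
  have e3' : (C (2 : F) : F[X]) = 2 := map_ofNat _ _
  have hd : derivative (fp D s) = C 2 * (X + C D) := by
    simp only [fp, derivative_add, derivative_mul, derivative_C, derivative_X_pow, derivative_X]
    simp only [C_mul, e3']
    norm_num
    rw [e3']
    ring
  rw [Polynomial.Separable, hd]
  refine ⟨-C s⁻¹, C (s⁻¹ * 2⁻¹) * (X + C D), ?_⟩
  have e1 : (C s⁻¹ : F[X]) * C s = 1 := by rw [← C_mul, inv_mul_cancel₀ hs, C_1]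
  have e2 : (C (2⁻¹ : F) : F[X]) * C 2 = 1 := by rw [← C_mul, inv_mul_cancel₀ h2, C_1]
  simp only [fp, C_mul, C_sub, C_pow, C_1, one_mul]
  have e3 : (C (2 : F) : F[X]) = 2 := map_ofNat _ _
  rw [e3] at e2 ⊢
  linear_combination e1 + C s⁻¹ * (X + C D) ^ 2 * e2

theorem gp_sep (h2 : (2 : F) ≠ 0) {D r m : F} (hr : r ≠ 0) (hm : m ≠ 0) :
    (gp D r m).Separable := by
  have e3 : (C (2 : F) : F[X]) = 2 := map_ofNat _ _
  have hd : derivative (gp D r m) = C 2 * (C (D ^ 2 - r) * X - C (m * D)) := by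
    simp only [gp, derivative_add, derivative_mul, derivative_C, derivative_X_pow, derivative_X]
    simp only [C_mul, C_neg, e3]
    norm_num
    rw [e3]
    ring
  rw [Polynomial.Separable, hd]
  -- (D²-r) g - ((D²-r) X - m D)² = - r m²
  refine ⟨-C ((r * m ^ 2)⁻¹ * (D ^ 2 - r)), C ((r * m ^ 2)⁻¹ * 2⁻¹) * (C (D ^ 2 - r) * X - C (m * D)), ?_⟩
  have e1 : (C (r * m ^ 2)⁻¹ : F[X]) * (C r * C m ^ 2) = 1 := by
    rw [← C_pow, ← C_mul, ← C_mul, inv_mul_cancel₀ (mul_ne_zero hr (pow_ne_zero 2 hm)), C_1]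
  have e2 : (C (2⁻¹ : F) : F[X]) * C 2 = 1 := by rw [← C_mul, inv_mul_cancel₀ h2, C_1]
  rw [e3] at e2 ⊢
  simp only [gp, C_mul, C_sub, C_pow, C_neg, e3]
  linear_combination e1 + C (r * m ^ 2)⁻¹ * ((C D ^ 2 - C r) * X - C m * C D) ^ 2 * e2

theorem sep_not_sq {p : F[X]} (hp : p.Separable) (hd : 1 ≤ p.natDegree) (c : F) (h : F[X]) :
    p ≠ C c * h ^ 2 := by
  intro he
  have h1 : Squarefree p := hp.squarefree
  have h2 : h * h ∣ p := ⟨C c, by rw [he]; ring⟩
  have h3 := h1 h h2
  have h4 : p.natDegree ≤ 0 := by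
    rw [he]
    refine natDegree_mul_le.trans ?_
    rw [natDegree_C, natDegree_pow, natDegree_eq_zero_of_isUnit h3]
  omega

theorem fg_not_sq (h2 : (2 : F) ≠ 0) {D s r m : F} (hs : s ≠ 0) (hr : r ≠ 0) (hm : m ≠ 0)
    (hm2 : 2 * m = s + r - D ^ 2) (hne : ¬ (D = 0 ∧ s = r)) (c : F) (h : F[X]) :
    fp D s * gp D r m ≠ C c * h ^ 2 := by
  intro he
  have hf0 : fp D s ≠ 0 := by
    intro h0
    have := fp_natDegree D s
    rw [h0, natDegree_zero] at this
    omega
  have hg0 : gp D r m ≠ 0 := (gp_sep h2 hr hm).ne_zero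
  have hfg0 : fp D s * gp D r m ≠ 0 := mul_ne_zero hf0 hg0
  have hc0 : c ≠ 0 := by
    rintro rfl
    rw [C_0, zero_mul] at he
    exact hfg0 he
  have hh0 : h ≠ 0 := by
    rintro rfl
    rw [zero_pow two_ne_zero, mul_zero] at he
    exact hfg0 he
  have hsqf : Squarefree (fp D s) := (fp_sep h2 hs).squarefree
  have hdiv : fp D s ∣ h := by
    rw [← hsqf.dvd_pow_iff_dvd two_ne_zero]
    refine ⟨C c⁻¹ * gp D r m, ?_⟩
    have : (C c⁻¹ : F[X]) * C c = 1 := by rw [← C_mul, inv_mul_cancel₀ hc0, C_1]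
    linear_combination (-h ^ 2) * this - C c⁻¹ * he
  obtain ⟨k, hk⟩ := hdiv
  have hk0 : k ≠ 0 := by
    rintro rfl
    rw [mul_zero] at hk
    exact hh0 hk
  have hg : gp D r m = C c * fp D s * k ^ 2 := by
    apply mul_left_cancel₀ hf0
    rw [he, hk]; ring
  have hdeg : k.natDegree = 0 := by
    have h3 := gp_natDegree_le D r m
    rw [hg, natDegree_mul (mul_ne_zero (C_ne_zero.2 hc0) hf0) (pow_ne_zero 2 hk0),
      natDegree_C_mul hc0, fp_natDegree, natDegree_pow] at h3
    omega
  obtain ⟨κ, hκ⟩ := natDegree_eq_zero.1 hdeg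
  rw [← hκ] at hg
  have hev : ∀ U : F, (m - D * U) ^ 2 - r * U ^ 2 = c * κ ^ 2 * ((U + D) ^ 2 - s) := by
    intro U
    have := congrArg (eval U) hg
    rw [gp_eval, eval_mul, eval_mul, eval_C, fp_eval, eval_pow, eval_C] at this
    rw [this]; ring
  obtain ⟨l, hl⟩ : ∃ l, l = c * κ ^ 2 := ⟨_, rfl⟩
  rw [← hl] at hev
  have a0 := hev 0
  have a1 := hev 1
  have a2 := hev (-1)
  have b1 : m * D = -(D * l) := by
    have : (2 : F) * 2 * (m * D) = 2 * 2 * (-(D * l)) := by linear_combination a2 - a1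
    exact mul_left_cancel₀ (mul_ne_zero h2 h2) this
  have b2 : D ^ 2 - r = l := by
    have : (2 : F) * (D ^ 2 - r) = 2 * l := by linear_combination a1 + a2 - 2 * a0
    exact mul_left_cancel₀ h2 this
  by_cases hD : D = 0
  · subst hD
    apply hne
    refine ⟨rfl, ?_⟩
    have hl' : l = -r := by rw [← b2]; ring
    have : (s - r) ^ 2 = 0 := by
      subst hl'
      linear_combination (2 * m + s + r) * (-hm2) + 4 * a0
    exact sub_eq_zero.1 (pow_eq_zero_iff two_ne_zero |>.1 this)
  · have b3 : m = -l := by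
      apply mul_left_cancel₀ hD
      linear_combination b1
    have hl0 : l ≠ 0 := by
      intro h0
      rw [h0, neg_zero] at b3
      exact hm b3
    have b4 : l = D ^ 2 - s := by
      apply mul_left_cancel₀ hl0
      rw [b3] at a0
      linear_combination a0
    have : D ^ 2 = 0 := by
      rw [b3] at hm2
      linear_combination -hm2 + b2 - b4
    exact hD (pow_eq_zero_iff two_ne_zero |>.1 this)

end Q146.Sat4
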