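import Pool.Agent.Q146.Sat4.Alg

/-! The number of paths of length three. -/

set_option autoImplicit false

namespace Q146.Sat4

open Finset Polynomial

variable {F : Type} [Field F] [Fintype F] [DecidableEq F]

theorem two_ne (hF : ringChar F ≠ 2) : (2 : F) ≠ 0 := Ring.two_ne_zero hF

theorem gp_natDegree_pos (h2 : (2 : F) ≠ 0) {D r m : F} (hr : r ≠ 0) (hm : m ≠ 0) :
    1 ≤ (gp D r m).natDegree := by
  by_contra hcon
  have h0 : (gp D r m).natDegree = 0 := by omega
  obtain ⟨c, hc⟩ := natDegree_eq_zero.1 h0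
  have hev : ∀ U : F, (m - D * U) ^ 2 - r * U ^ 2 = c := by
    intro U
    have := congrArg (eval U) hc
    rw [gp_eval, eval_C] at this
    exact this.symm
  have a0 := hev 0
  have a1 := hev 1
  have a2 := hev (-1)
  have b : (2 : F) * 2 * (m * D) = 0 := by linear_combination a2 - a1
  have hD : D = 0 := by
    rcases mul_eq_zero.1 b with h | h
    · exact absurd h (mul_ne_zero h2 h2)
    · rcases mul_eq_zero.1 h with h' | h'
      · exact absurd h' hm
      · exact h'
  subst hD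
  exact hr (by linear_combination a0 - a1)

/-- the parameters of the good paths -/
def PP (κ : ℤ) (D s r m : F) : Finset F :=
  univ.filter fun U => U ≠ 0 ∧ quadraticChar F ((U + D) ^ 2 - s) = κ ∧
    quadraticChar F ((m - D * U) ^ 2 - r * U ^ 2) = κ

theorem roots_card (p : F[X]) (hp : p ≠ 0) (hd : p.natDegree ≤ 2) :
    ∑ U : F, (if p.eval U = 0 then (1 : ℤ) else 0) ≤ 2 := by
  rw [← Finset.sum_filter, Finset.sum_const, nsmul_eq_mul, mul_one]
  have h1 : (univ.filter fun U : F => p.eval U = 0) ⊆ p.roots.toFinset := by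
    intro U hU
    rw [Multiset.mem_toFinset, mem_roots hp]
    exact (mem_filter.1 hU).2
  have h2 := (card_le_card h1).trans ((Multiset.toFinset_card_le _).trans ((card_roots' p).trans hd))
  exact_mod_cast h2

theorem ptw (κ a b P z zf zg : ℤ) (hκ : κ = 1 ∨ κ = -1)
    (ha : (a = 0 ∧ zf = 1) ∨ ((a = 1 ∨ a = -1) ∧ zf = 0))
    (hb : (b = 0 ∧ zg = 1) ∨ ((b = 1 ∨ b = -1) ∧ zg = 0)) (hP : 0 ≤ P) (hz : 0 ≤ z)
    (hgood : a = κ → b = κ → 1 ≤ P + z) :
    (1 + κ * a) * (1 + κ * b) ≤ 4 * P + 4 * z + 2 * zf + 2 * zg := by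
  rcases hκ with rfl | rfl <;> rcases ha with ⟨rfl, rfl⟩ | ⟨rfl | rfl, rfl⟩ <;>
    rcases hb with ⟨rfl, rfl⟩ | ⟨rfl | rfl, rfl⟩ <;> norm_num at * <;> linarith

theorem count (hF : ringChar F ≠ 2) {κ : ℤ} (hκ : κ = 1 ∨ κ = -1) {D s r m : F}
    (hs : quadraticChar F s = κ) (hr : quadraticChar F r = κ) (hm : m ≠ 0)
    (hm2 : 2 * m = s + r - D ^ 2) (hne : ¬ (D = 0 ∧ s = r)) :
    (Fintype.card F : ℝ) - 5 * Real.sqrt (Fintype.card F) - 12 ≤ 4 * ((PP κ D s r m).card : ℝ) := by
  have h2 := two_ne hF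
  have hκ0 : κ ≠ 0 := by rcases hκ with h | h <;> rw [h] <;> norm_num
  have hs0 : s ≠ 0 := by
    rintro rfl
    rw [quadraticChar_zero] at hs
    exact hκ0 hs.symm
  have hr0 : r ≠ 0 := by
    rintro rfl
    rw [quadraticChar_zero] at hr
    exact hκ0 hr.symm
  set f := fp D s with hf
  set g := gp D r m with hg
  have hfs := fp_sep h2 (D := D) hs0
  have hgs := gp_sep h2 (D := D) hr0 hm
  have hfd : f.natDegree = 2 := fp_natDegree D s
  have hgd : g.natDegree ≤ 2 := gp_natDegree_le D r m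
  have hgd1 : 1 ≤ g.natDegree := gp_natDegree_pos h2 hr0 hm
  have q0 : 0 ≤ Real.sqrt (Fintype.card F) := Real.sqrt_nonneg _
  have w1 := Pool.Agent.H341R2.Sharp.weil_sharp hF f (by omega) (sep_not_sq hfs (by omega))
  have w2 := Pool.Agent.H341R2.Sharp.weil_sharp hF g hgd1 (sep_not_sq hgs hgd1)
  have hfg : (f * g).natDegree = f.natDegree + g.natDegree :=
    natDegree_mul hfs.ne_zero hgs.ne_zero
  have w3 := Pool.Agent.H341R2.Sharp.weil_sharp hF (f * g) (by omega)
    (fg_not_sq h2 hs0 hr0 hm hm2 hne)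
  rw [hfd] at w1
  have w2' : |∑ x : F, (quadraticChar F (g.eval x) : ℝ)| ≤ Real.sqrt (Fintype.card F) := by
    refine w2.trans ?_
    have : ((g.natDegree : ℝ) - 1) ≤ 1 := by
      have : (g.natDegree : ℝ) ≤ 2 := by exact_mod_cast hgd
      linarith
    calc ((g.natDegree : ℝ) - 1) * Real.sqrt (Fintype.card F)
        ≤ 1 * Real.sqrt (Fintype.card F) := mul_le_mul_of_nonneg_right this q0
      _ = _ := one_mul _
  have w3' : |∑ x : F, (quadraticChar F ((f * g).eval x) : ℝ)| ≤
      3 * Real.sqrt (Fintype.card F) := by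
    refine w3.trans ?_
    have : (((f * g).natDegree : ℝ) - 1) ≤ 3 := by
      have : ((f * g).natDegree : ℝ) ≤ 4 := by
        have : (f * g).natDegree ≤ 4 := by omega
        exact_mod_cast this
      linarith
    exact mul_le_mul_of_nonneg_right this q0
  -- pointwise
  have hpt : ∀ U : F, (1 + κ * quadraticChar F (f.eval U)) * (1 + κ * quadraticChar F (g.eval U)) ≤
      4 * (if U ∈ PP κ D s r m then (1 : ℤ) else 0) + 4 * (if U = 0 then (1 : ℤ) else 0) +
      2 * (if f.eval U = 0 then (1 : ℤ) else 0) + 2 * (if g.eval U = 0 then (1 : ℤ) else 0) := by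
    intro U
    have hPP : U ∈ PP κ D s r m ↔ U ≠ 0 ∧ quadraticChar F (f.eval U) = κ ∧
        quadraticChar F (g.eval U) = κ := by
      rw [hf, hg, fp_eval, gp_eval]
      simp [PP]
    refine ptw κ _ _ _ _ _ _ hκ ?_ ?_ (by split_ifs <;> norm_num) (by split_ifs <;> norm_num) ?_
    · by_cases hf0 : f.eval U = 0
      · left
        rw [if_pos hf0, hf0, quadraticChar_zero]
        exact ⟨rfl, rfl⟩
      · right
        rw [if_neg hf0]
        exact ⟨quadraticChar_dichotomy hf0, rfl⟩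
    · by_cases hg0 : g.eval U = 0
      · left
        rw [if_pos hg0, hg0, quadraticChar_zero]
        exact ⟨rfl, rfl⟩
      · right
        rw [if_neg hg0]
        exact ⟨quadraticChar_dichotomy hg0, rfl⟩
    · intro h1 h3
      by_cases hU : U = 0
      · rw [if_pos hU]
        split_ifs <;> norm_num
      · rw [if_pos (hPP.2 ⟨hU, h1, h3⟩), if_neg hU]
        norm_num
  have hsum := Finset.sum_le_sum (fun U (_ : U ∈ (univ : Finset F)) => hpt U)
  have hR : ∑ U : F, (4 * (if U ∈ PP κ D s r m then (1 : ℤ) else 0) +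
      4 * (if U = 0 then (1 : ℤ) else 0) + 2 * (if f.eval U = 0 then (1 : ℤ) else 0) +
      2 * (if g.eval U = 0 then (1 : ℤ) else 0)) ≤ 4 * ((PP κ D s r m).card : ℤ) + 12 := by
    rw [sum_add_distrib, sum_add_distrib, sum_add_distrib, ← mul_sum, ← mul_sum, ← mul_sum,
      ← mul_sum]
    have e1 : ∑ U : F, (if U ∈ PP κ D s r m then (1 : ℤ) else 0) = ((PP κ D s r m).card : ℤ) := by
      rw [← Finset.sum_filter, Finset.sum_const, nsmul_eq_mul, mul_one]
      congr 2
      ext U
      simp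
    have e2 : ∑ U : F, (if U = 0 then (1 : ℤ) else 0) = 1 := by simp
    have e3 := roots_card f hfs.ne_zero (by omega)
    have e4 := roots_card g hgs.ne_zero hgd
    rw [e1, e2]
    linarith
  have hL : ∑ U : F, ((1 + κ * quadraticChar F (f.eval U)) * (1 + κ * quadraticChar F (g.eval U))) =
      (Fintype.card F : ℤ) + κ * ∑ U : F, quadraticChar F (f.eval U) +
        κ * ∑ U : F, quadraticChar F (g.eval U) + ∑ U : F, quadraticChar F ((f * g).eval U) := by
    rw [mul_sum, mul_sum]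
    have hq : (Fintype.card F : ℤ) = ∑ _U : F, (1 : ℤ) := by simp
    rw [hq, ← sum_add_distrib, ← sum_add_distrib, ← sum_add_distrib]
    apply sum_congr rfl
    intro U _
    rw [eval_mul, map_mul]
    have : κ * κ = 1 := by rcases hκ with h | h <;> rw [h] <;> norm_num
    linear_combination (quadraticChar F (f.eval U) * quadraticChar F (g.eval U)) * this
  rw [hL] at hsum
  have hfin := hsum.trans hR
  have hfin' : (Fintype.card F : ℝ) + κ * ∑ U : F, (quadraticChar F (f.eval U) : ℝ) +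
        κ * ∑ U : F, (quadraticChar F (g.eval U) : ℝ) +
        ∑ U : F, (quadraticChar F ((f * g).eval U) : ℝ) ≤ 4 * ((PP κ D s r m).card : ℝ) + 12 := by
    exact_mod_cast hfin
  rw [abs_le] at w1 w2' w3'
  obtain ⟨a1, a2⟩ := w1
  obtain ⟨b1, b2⟩ := w2'
  obtain ⟨c1, c2⟩ := w3'
  push_cast at a1 a2
  rcases hκ with h | h
  · rw [h] at hfin' ⊢
    push_cast at hfin'
    linarith
  · rw [h] at hfin' ⊢
    push_cast at hfin'
    linarith

/-- the paths of length three, avoiding few abscissae -/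
theorem path3 (hF : ringChar F ≠ 2) {κ : ℤ} (hκ : κ = 1 ∨ κ = -1) {v v' : F × F}
    (hv : quadraticChar F v.2 = κ) (hv' : quadraticChar F v'.2 = κ) (hne : v ≠ v')
    (hR : ¬ R v v') (X0 : Finset F)
    (hX : 8 * (X0.card : ℝ) < (Fintype.card F : ℝ) - 5 * Real.sqrt (Fintype.card F) - 12) :
    ∃ a c : F × F, quadraticChar F a.2 = κ ∧ quadraticChar F c.2 = κ ∧ a.1 ∉ X0 ∧ c.1 ∉ X0 ∧
      R v a ∧ R a c ∧ R c v' := by
  have h2 := two_ne hF
  obtain ⟨x, s⟩ := v
  obtain ⟨e, r⟩ := v'
  simp only at hv hv'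
  obtain ⟨D, hD⟩ : ∃ D, D = e - x := ⟨_, rfl⟩
  obtain ⟨m, hm⟩ : ∃ m, m = (s + r - D ^ 2) / 2 := ⟨_, rfl⟩
  have hm2 : 2 * m = s + r - D ^ 2 := by rw [hm]; field_simp
  have hm0 : m ≠ 0 := by
    rintro rfl
    apply hR
    unfold R
    simp only
    rw [hD] at hm2
    linear_combination hm2
  have hne' : ¬ (D = 0 ∧ s = r) := by
    rintro ⟨h1, h3⟩
    apply hne
    rw [hD] at h1
    rw [Prod.mk.injEq]
    exact ⟨(sub_eq_zero.1 h1).symm, h3⟩
  have hc := count hF hκ hv hv' hm0 hm2 hne'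
  have hlt : 2 * X0.card < (PP κ D s r m).card := by
    have : 8 * (X0.card : ℝ) < 4 * ((PP κ D s r m).card : ℝ) := hX.trans_le hc
    have : (2 * X0.card : ℝ) < ((PP κ D s r m).card : ℝ) := by linarith
    exact_mod_cast this
  -- choose a parameter
  obtain ⟨U, hU, hU1, hU2⟩ : ∃ U ∈ PP κ D s r m, e + U ∉ X0 ∧ x + m / U ∉ X0 := by
    by_contra hcon
    push Not at hcon
    have hsub : PP κ D s r m ⊆ (X0.image fun z => z - e) ∪ (X0.image fun z => m / (z - x)) := by
      intro U hU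
      rw [mem_union, mem_image, mem_image]
      by_cases h : e + U ∈ X0
      · left
        exact ⟨e + U, h, by ring⟩
      · right
        have hU0 : U ≠ 0 := (mem_filter.1 hU).2.1
        refine ⟨x + m / U, hcon U hU h, ?_⟩
        rw [add_sub_cancel_left]
        field_simp
    have h3 := (card_le_card hsub).trans (card_union_le _ _)
    have h4 : (X0.image fun z => z - e).card ≤ X0.card := card_image_le
    have h5 : (X0.image fun z => m / (z - x)).card ≤ X0.card := card_image_le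
    omega
  obtain ⟨-, hU0, hf, hg⟩ := mem_filter.1 hU
  refine ⟨(e + U, (U + D) ^ 2 - s), (x + m / U, (m / U - D) ^ 2 - r), hf, ?_, hU1, hU2, ?_, ?_, ?_⟩
  · have e1 : (m - D * U) ^ 2 - r * U ^ 2 = U ^ 2 * ((m / U - D) ^ 2 - r) := by
      field_simp
    rw [e1, map_mul, map_pow, quadraticChar_sq_one hU0, one_mul] at hg
    exact hg
  · unfold R
    simp only
    rw [hD]; ring
  · unfold R
    simp only
    have e2 : m / U * U = m := div_mul_cancel₀ m hU0
    rw [hD] at hm2 ⊢
    linear_combination (-2) * e2 - hm2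
  · unfold R
    simp only
    rw [hD]; ring

end Q146.Sat4
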