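import Pool.Agent.Q146.Sat4.Cnt
import Pool.Agent.Cov.PNT

/-! Triangle-free `C₄`-saturated graphs on `n` vertices for all large `n`. -/

set_option autoImplicit false

namespace Q146.Sat4

open Finset

/-- `G` is `F`-saturated: it contains no copy of `F`, but a copy of `F` appears as soon as an edge
between two non-adjacent vertices is added. -/
def IsSaturated {V W : Type} (F : SimpleGraph W) (G : SimpleGraph V) : Prop :=
  F.Free G ∧ ∀ u v : V, u ≠ v → ¬ G.Adj u v → ¬ F.Free (G ⊔ SimpleGraph.edge u v)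

theorem c4_free {V : Type} {G : SimpleGraph V}
    (h : ∀ v v' a b : V, v ≠ v' → G.Adj v a → G.Adj v' a → G.Adj v b → G.Adj v' b → a = b) :
    (SimpleGraph.cycleGraph 4).Free G := by
  rintro ⟨f⟩
  have hinj : Function.Injective f := f.injective
  have hadj : ∀ i j : Fin 4, (SimpleGraph.cycleGraph 4).Adj i j → G.Adj (f i) (f j) :=
    fun i j hij => f.toHom.map_adj hij
  have h01 := hadj 0 1 (by decide)
  have h12 := hadj 1 2 (by decide)
  have h23 := hadj 2 3 (by decide)
  have h30 := hadj 3 0 (by decide)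
  have h02 : f 0 ≠ f 2 := fun e => absurd (hinj e) (by decide)
  have h13 := h (f 0) (f 2) (f 1) (f 3) h02 h01 h12.symm h30.symm h23
  exact absurd (hinj h13) (by decide)

theorem c4_add {V : Type} {G : SimpleGraph V} {u v p q : V} (huv : u ≠ v) (hna : ¬ G.Adj u v)
    (h1 : G.Adj u p) (h2 : G.Adj p q) (h3 : G.Adj q v) :
    ¬ (SimpleGraph.cycleGraph 4).Free (G ⊔ SimpleGraph.edge u v) := by
  intro hfree
  apply hfree
  have hpv : p ≠ v := by rintro rfl; exact hna h1
  have huq : u ≠ q := by rintro rfl; exact hna h3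
  have hup := h1.ne
  have hpq := h2.ne
  have hqv := h3.ne
  have e : (G ⊔ SimpleGraph.edge u v).Adj u v := by
    rw [SimpleGraph.sup_adj]
    right
    rw [SimpleGraph.edge_adj]
    exact ⟨Or.inl ⟨rfl, rfl⟩, huv⟩
  have g1 : (G ⊔ SimpleGraph.edge u v).Adj u p := Or.inl h1
  have g2 : (G ⊔ SimpleGraph.edge u v).Adj p q := Or.inl h2
  have g3 : (G ⊔ SimpleGraph.edge u v).Adj q v := Or.inl h3
  refine ⟨⟨⟨![u, p, q, v], ?_⟩, ?_⟩⟩
  · intro i j hij
    fin_cases i <;> fin_cases j <;>
      first
        | (exfalso; revert hij; decide)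
        | exact g1 | exact g1.symm | exact g2 | exact g2.symm | exact g3 | exact g3.symm
        | exact e | exact e.symm
  · intro i j hij
    fin_cases i <;> fin_cases j <;> simp at hij ⊢ <;>
      first
        | exact absurd hij hup | exact absurd hij.symm hup
        | exact absurd hij huq | exact absurd hij.symm huq
        | exact absurd hij huv | exact absurd hij.symm huv
        | exact absurd hij hpq | exact absurd hij.symm hpq
        | exact absurd hij hpv | exact absurd hij.symm hpv
        | exact absurd hij hqv | exact absurd hij.symm hqv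

theorem tri_free {V : Type} {G : SimpleGraph V}
    (h : ∀ u v w : V, G.Adj u v → G.Adj v w → G.Adj w u → False) :
    (⊤ : SimpleGraph (Fin 3)).Free G := by
  rintro ⟨f⟩
  have hadj : ∀ i j : Fin 3, i ≠ j → G.Adj (f i) (f j) :=
    fun i j hij => f.toHom.map_adj hij
  exact h (f 0) (f 1) (f 2) (hadj 0 1 (by decide)) (hadj 1 2 (by decide)) (hadj 2 0 (by decide))

variable {F : Type} [Field F] [Fintype F] [DecidableEq F]

/-- number of `s` with `χ(s) = κ` -/
theorem card_class (hF : ringChar F ≠ 2) {κ : ℤ} (hκ : κ = 1 ∨ κ = -1) :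
    2 * (univ.filter fun s : F => quadraticChar F s = κ).card + 1 = Fintype.card F := by
  have h0 := quadraticChar_sum_zero hF
  have hpt : ∀ s : F, κ * quadraticChar F s + 1 =
      2 * (if quadraticChar F s = κ then (1 : ℤ) else 0) + (if s = 0 then (1 : ℤ) else 0) := by
    intro s
    by_cases hs : s = 0
    · rw [if_pos hs, hs, quadraticChar_zero]
      rcases hκ with h | h <;> rw [h] <;> norm_num
    · rw [if_neg hs]
      rcases quadraticChar_dichotomy hs with h | h <;> rcases hκ with h' | h' <;> rw [h, h'] <;>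
        norm_num
  have hs := Finset.sum_congr rfl (fun s (_ : s ∈ (univ : Finset F)) => hpt s)
  rw [sum_add_distrib, ← mul_sum, h0, sum_add_distrib, ← mul_sum] at hs
  have e1 : ∑ s : F, (if quadraticChar F s = κ then (1 : ℤ) else 0) =
      ((univ.filter fun s : F => quadraticChar F s = κ).card : ℤ) := by
    rw [← Finset.sum_filter, Finset.sum_const, nsmul_eq_mul, mul_one]
  have e2 : ∑ s : F, (if s = 0 then (1 : ℤ) else 0) = 1 := by simp
  rw [e1, e2] at hs
  simp only [sum_const, card_univ, nsmul_eq_mul, mul_one, mul_zero, zero_add] at hs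
  omega

/-- The graph: all `n` between `(q - k) (q - 1) / 2` and `q (q - 1) / 2`. -/
theorem graph (hF : ringChar F ≠ 2) (k n : ℕ) (hk : k ≤ Fintype.card F)
    (hX : 8 * (k : ℝ) < (Fintype.card F : ℝ) - 5 * Real.sqrt (Fintype.card F) - 12)
    (h1 : (Fintype.card F - k) * (Fintype.card F - 1) ≤ 2 * n)
    (h2 : 2 * n ≤ Fintype.card F * (Fintype.card F - 1)) :
    ∃ G : SimpleGraph (Fin n), IsSaturated (SimpleGraph.cycleGraph 4) G ∧
      (⊤ : SimpleGraph (Fin 3)).Free G := by
  have h20 := two_ne hF
  obtain ⟨κ, hκ⟩ : ∃ κ, κ = -quadraticChar F (-1) := ⟨_, rfl⟩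
  have hκ1 : κ = 1 ∨ κ = -1 := by
    rcases quadraticChar_dichotomy (F := F) (a := -1) (neg_ne_zero.2 one_ne_zero) with h | h
    · right; rw [hκ, h]
    · left; rw [hκ, h]; norm_num
  set S := univ.filter fun s : F => quadraticChar F s = κ with hS
  have hSc : 2 * S.card + 1 = Fintype.card F := card_class hF hκ1
  obtain ⟨X0, -, hX0⟩ := exists_subset_card_eq (s := (univ : Finset F)) (n := k)
    (by rw [card_univ]; exact hk)
  have hsub : (univ \ X0) ×ˢ S ⊆ (univ : Finset F) ×ˢ S :=
    product_subset_product sdiff_subset (Subset.refl _)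
  have hc1 : ((univ \ X0) ×ˢ S).card ≤ n := by
    rw [card_product, card_sdiff_of_subset (subset_univ _), card_univ, hX0]
    have : Fintype.card F - 1 = 2 * S.card := by omega
    rw [this] at h1
    have : 2 * ((Fintype.card F - k) * S.card) ≤ 2 * n := by
      calc 2 * ((Fintype.card F - k) * S.card) = (Fintype.card F - k) * (2 * S.card) := by ring
        _ ≤ 2 * n := h1
    omega
  have hc2 : n ≤ ((univ : Finset F) ×ˢ S).card := by
    rw [card_product, card_univ]
    have : Fintype.card F - 1 = 2 * S.card := by omega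
    rw [this] at h2
    have : 2 * n ≤ 2 * (Fintype.card F * S.card) := by
      calc 2 * n ≤ Fintype.card F * (2 * S.card) := h2
        _ = 2 * (Fintype.card F * S.card) := by ring
    omega
  obtain ⟨W, hW1, hW2, hWc⟩ := exists_subsuperset_card_eq hsub hc1 hc2
  have hWκ : ∀ w ∈ W, quadraticChar F w.2 = κ := by
    intro w hw
    have := hW2 hw
    rw [mem_product] at this
    exact (mem_filter.1 this.2).2
  have hWX : ∀ w : F × F, quadraticChar F w.2 = κ → w.1 ∉ X0 → w ∈ W := by
    intro w hw hwX
    apply hW1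
    rw [mem_product, mem_sdiff]
    exact ⟨⟨mem_univ _, hwX⟩, mem_filter.2 ⟨mem_univ _, hw⟩⟩
  have e : Fin n ≃ W := (Finset.equivFinOfCardEq hWc).symm
  have hκ0 : κ ≠ 0 := by rcases hκ1 with h | h <;> rw [h] <;> norm_num
  have hirr : ∀ w : F × F, quadraticChar F w.2 = κ → ¬ R w w := by
    intro w hw hR
    unfold R at hR
    have h3 : (2 : F) * w.2 = 0 := by linear_combination -hR
    rcases mul_eq_zero.1 h3 with h4 | h4
    · exact h20 h4
    · rw [h4, quadraticChar_zero] at hw
      exact hκ0 hw.symm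
  let G : SimpleGraph (Fin n) :=
    { Adj := fun i j => R (e i : F × F) (e j : F × F)
      symm := ⟨fun i j h => R_symm h⟩
      loopless := ⟨fun i h => hirr _ (hWκ _ (e i).2) h⟩ }
  refine ⟨G, ⟨c4_free ?_, ?_⟩, tri_free ?_⟩
  · intro v v' a b hne g1 g2 g3 g4
    have : (e v : F × F) ≠ e v' := fun h => hne (e.injective (Subtype.ext h))
    exact e.injective (Subtype.ext (c4 h20 this g1 g2 g3 g4))
  · intro u v huv hna
    have hne : (e u : F × F) ≠ e v := fun h => huv (e.injective (Subtype.ext h))
    obtain ⟨a, c, ha, hc, haX, hcX, r1, r2, r3⟩ := path3 hF hκ1 (hWκ _ (e u).2) (hWκ _ (e v).2)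
      hne hna X0 (by rw [hX0]; exact hX)
    have haW := hWX a ha haX
    have hcW := hWX c hc hcX
    refine c4_add (p := e.symm ⟨a, haW⟩) (q := e.symm ⟨c, hcW⟩) huv hna ?_ ?_ ?_
    · show R _ _
      rw [Equiv.apply_symm_apply]
      exact r1
    · show R _ _
      rw [Equiv.apply_symm_apply, Equiv.apply_symm_apply]
      exact r2
    · show R _ _
      rw [Equiv.apply_symm_apply]
      exact r3
  · intro u v w g1 g2 g3
    exact no_tri h20 hκ (hWκ _ (e u).2) (hWκ _ (e v).2) (hWκ _ (e w).2) g1 g2 g3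

end Q146.Sat4
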