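import Pool.Agent.Cov.PNT
import Pool.Agent.Q146.Sat4.Main

/-! Choice of the prime. -/

set_option autoImplicit false

namespace Q146.Sat4

open Filter Topology

theorem exists_prime_between {ε : ℝ} (hε : 0 < ε) :
    ∀ᶠ x : ℝ in atTop, ∃ p : ℕ, p.Prime ∧ x < p ∧ (p : ℝ) ≤ (1 + ε) * x := by
  have h1 := Pool.Agent.Cov.PNT.theta_div_tendsto
  have h2 : Tendsto (fun x : ℝ => Chebyshev.theta ((1 + ε) * x) / x) atTop (𝓝 (1 + ε)) := by
    have h3 := (h1.comp (tendsto_id.const_mul_atTop (by linarith : (0 : ℝ) < 1 + ε))).mul_const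
      (1 + ε)
    rw [one_mul] at h3
    refine h3.congr' ?_
    filter_upwards [eventually_gt_atTop 0] with x hx
    simp only [Function.comp, id]
    field_simp
  have h4 := h2.sub h1
  have h5 : ∀ᶠ x : ℝ in atTop, 0 < Chebyshev.theta ((1 + ε) * x) / x - Chebyshev.theta x / x :=
    h4.eventually (lt_mem_nhds (by linarith))
  filter_upwards [h5, eventually_gt_atTop 0] with x hx hx0
  by_contra hno
  push Not at hno
  have : Chebyshev.theta ((1 + ε) * x) ≤ Chebyshev.theta x := by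
    unfold Chebyshev.theta
    apply Finset.sum_le_sum_of_subset_of_nonneg
    · intro p hp
      simp only [Finset.mem_filter, Finset.mem_Ioc] at hp ⊢
      obtain ⟨⟨hp0, hp1⟩, hpp⟩ := hp
      have hp2 : (p : ℝ) ≤ (1 + ε) * x := (Nat.le_floor_iff (by positivity)).mp hp1
      refine ⟨⟨hp0, ?_⟩, hpp⟩
      apply Nat.le_floor
      by_contra hlt
      push Not at hlt
      exact absurd hp2 (not_le.mpr (hno p hpp hlt))
    · intro i hi _
      simp only [Finset.mem_filter, Finset.mem_Ioc] at hi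
      exact Real.log_nonneg (by exact_mod_cast hi.2.one_le)
  rw [← sub_div] at hx
  have := div_nonpos_of_nonpos_of_nonneg (sub_nonpos.mpr this) hx0.le
  linarith

theorem main : ∃ n₀ : ℕ, ∀ n ≥ n₀, ∃ G : SimpleGraph (Fin n),
    IsSaturated (SimpleGraph.cycleGraph 4) G ∧ (⊤ : SimpleGraph (Fin 3)).Free G := by
  have hz : Tendsto (fun n : ℕ => Real.sqrt (2 * n)) atTop atTop :=
    Real.tendsto_sqrt_atTop.comp
      ((tendsto_natCast_atTop_atTop (R := ℝ)).const_mul_atTop (by norm_num))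
  have hz1 : Tendsto (fun n : ℕ => Real.sqrt (2 * n) + 1) atTop atTop :=
    tendsto_atTop_add_const_right _ _ hz
  have h1 := hz1.eventually (exists_prime_between (ε := 1 / 20) (by norm_num))
  have h2 := hz.eventually_ge_atTop 1000
  obtain ⟨n₀, hn₀⟩ := (h1.and h2).exists_forall_of_atTop
  refine ⟨n₀, fun n hn => ?_⟩
  obtain ⟨⟨p, hp, hp1, hp2⟩, hn2⟩ := hn₀ n hn
  obtain ⟨z, hzz⟩ : ∃ z, z = Real.sqrt (2 * (n : ℝ)) := ⟨_, rfl⟩
  rw [← hzz] at hp1 hp2 hn2
  have hz2 : z ^ 2 = 2 * (n : ℝ) := by rw [hzz]; exact Real.sq_sqrt (by positivity)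
  have : Fact p.Prime := ⟨hp⟩
  have hcard : Fintype.card (ZMod p) = p := ZMod.card p
  have hF : ringChar (ZMod p) ≠ 2 := by
    rw [ZMod.ringChar_zmod_n]
    rintro rfl
    norm_num at hp1
    linarith
  obtain ⟨t, ht⟩ : ∃ t, t = Real.sqrt (p : ℝ) := ⟨_, rfl⟩
  have ht2 : t ^ 2 = (p : ℝ) := by rw [ht]; exact Real.sq_sqrt (by positivity)
  have ht0 : 31 ≤ t := by
    rw [ht]
    apply Real.le_sqrt_of_sq_le
    linarith
  have hk1 : ((p / 10 : ℕ) : ℝ) ≤ (p : ℝ) / 10 := by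
    exact_mod_cast Nat.cast_div_le (α := ℝ) (m := p) (n := 10)
  have hk2 : (p : ℝ) - 9 ≤ 10 * ((p / 10 : ℕ) : ℝ) := by
    have : p ≤ 10 * (p / 10) + 9 := by omega
    have h3 : (p : ℝ) ≤ 10 * ((p / 10 : ℕ) : ℝ) + 9 := by exact_mod_cast this
    linarith
  refine graph (F := ZMod p) hF (p / 10) n ?_ ?_ ?_ ?_
  · rw [hcard]; exact Nat.div_le_self _ _
  · rw [hcard, ← ht]
    nlinarith
  · rw [hcard]
    have hp0 : 1 ≤ p := hp.one_lt.le
    have hpk : p / 10 ≤ p := Nat.div_le_self _ _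
    have : (((p - p / 10) * (p - 1) : ℕ) : ℝ) ≤ ((2 * n : ℕ) : ℝ) := by
      rw [Nat.cast_mul, Nat.cast_sub hpk, Nat.cast_sub hp0]
      push_cast
      rw [← hz2]
      have a1 : (p : ℝ) - ((p / 10 : ℕ) : ℝ) ≤ 9 / 10 * (p + 1) := by linarith
      have a2 : (0 : ℝ) ≤ (p : ℝ) - 1 := by linarith
      have a3 : ((p : ℝ) - ((p / 10 : ℕ) : ℝ)) * ((p : ℝ) - 1) ≤ 9 / 10 * (p + 1) * (p - 1) :=
        mul_le_mul_of_nonneg_right a1 a2
      push_cast at a3 ⊢
      nlinarith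
    exact_mod_cast this
  · rw [hcard]
    have hp0 : 1 ≤ p := hp.one_lt.le
    have : ((2 * n : ℕ) : ℝ) ≤ ((p * (p - 1) : ℕ) : ℝ) := by
      rw [Nat.cast_mul p, Nat.cast_sub hp0]
      push_cast
      rw [← hz2]
      nlinarith
    exact_mod_cast this

end Q146.Sat4
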